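import Mathlib

/-!
# The number of good involutions of a connected noninvolutory quandle

For every set `I` (finite or infinite) there is a connected noninvolutory quandle, finite if `I` is
finite, with exactly `2 ^ |I|` good involutions. So the number of good involutions of connected
noninvolutory quandles is not bounded, not even by an infinite cardinal, and it is not bounded by a
finite number for the finite ones.

The quandle is the product of the quandle of the six `4`-cycles of the symmetric group on four letters
and of `I` copies of the quandle of the twelve noncentral elements of order two of `GL(2,3)`. All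
products of the second quandle are connected with three right translations at a time, because a
coordinate can be left fixed by idempotence; and a good involution of a connected quandle is
determined by its value at one point, which has to act as the inverse of this point.
-/

set_option autoImplicit false

universe u

namespace Pool.Agent.Results.MP_f5f603_al.AllPowersOfTwo

/-- The quandle axioms for `x * y = op x y`. -/
def IsQuandle {R : Type u} (op : R → R → R) : Prop :=
  (∀ x, op x x = x) ∧ (∀ y, Function.Bijective fun x => op x y) ∧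
    ∀ x y z, op (op x y) z = op (op x z) (op y z)

/-- The right translations `x ↦ x * z`, as permutations. -/
def translations {R : Type u} (op : R → R → R) : Set (Equiv.Perm R) :=
  {σ | ∃ z, ∀ w, σ w = op w z}

/-- The group generated by the right translations acts transitively. -/
def Connected {R : Type u} (op : R → R → R) : Prop :=
  ∀ x y, ∃ g ∈ Subgroup.closure (translations op), g x = y

/-- The quandle is involutory: `(x * y) * y = x`. -/
def Involutory {R : Type u} (op : R → R → R) : Prop := ∀ x y, op (op x y) y = x

/-- Good involutions; the last clause says that the right translation by `ρ y` is the inverse of the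
right translation by `y`. -/
def GoodInvolution {R : Type u} (op : R → R → R) (ρ : R → R) : Prop :=
  (∀ x, ρ (ρ x) = x) ∧ (∀ x y, ρ (op x y) = op (ρ x) y) ∧ ∀ x y, op (op x (ρ y)) y = x

/-- The quandle of the six `4`-cycles. -/
def opC (a b : Fin 6) : Fin 6 := Fin.ofNat 6 ((7170516540178262739754679282335278837011280 >>> (4 * (6 * a.val + b.val))) % 16)

/-- The quandle of the twelve noncentral elements of order two of `GL(2,3)`. -/
def opA (a b : Fin 12) : Fin 12 := Fin.ofNat 12 ((179382703191252761198656607298053805505997037283929083736770451018219908854851466785090711624727741934770934173073183764598773505163366317552720817078900162280096211792168592 >>> (4 * (12 * a.val + b.val))) % 16)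

def ρC : Fin 6 → Fin 6 := ![4, 2, 1, 5, 0, 3]
def ρA : Fin 12 → Fin 12 := ![3, 5, 4, 0, 2, 1, 10, 9, 11, 7, 6, 8]

theorem qC : IsQuandle opC := by unfold IsQuandle; decide +kernel
theorem qA : IsQuandle opA := by unfold IsQuandle; decide +kernel
theorem gC : GoodInvolution opC ρC := by unfold GoodInvolution; decide +kernel
theorem gA : GoodInvolution opA ρA := by unfold GoodInvolution; decide +kernel
theorem gA' : GoodInvolution opA id := by unfold GoodInvolution; decide +kernel
theorem cC : ∀ a, ∃ u v w, opC (opC (opC 0 u) v) w = a := by decide +kernel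
theorem cA : ∀ a, ∃ u v w, opA (opA (opA 0 u) v) w = a := by decide +kernel
theorem fC : ∀ c, (∀ a, opC (opC a c) 0 = a) → c = ρC 0 := by decide +kernel
theorem fA : ∀ c, (∀ a, opA (opA a c) 0 = a) → c = 0 ∨ c = ρA 0 := by decide +kernel
theorem nC : ¬ ∀ a b, opC (opC a b) b = a := by decide +kernel
theorem nA : ρA 0 ≠ 0 := by decide +kernel

section

variable {I : Type u}

/-- The product. -/
def op (x y : Fin 6 × (I → Fin 12)) : Fin 6 × (I → Fin 12) :=
  (opC x.1 y.1, fun i => opA (x.2 i) (y.2 i))

theorem isQuandle : IsQuandle (op (I := I)) := by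
  refine ⟨fun x => Prod.ext (qC.1 x.1) (funext fun i => qA.1 (x.2 i)), fun y => ?_,
    fun x y z => Prod.ext (qC.2.2 x.1 y.1 z.1) (funext fun i => qA.2.2 (x.2 i) (y.2 i) (z.2 i))⟩
  have h1 := qC.2.1 y.1
  have h2 := fun i => qA.2.1 (y.2 i)
  constructor
  · intro x x' h
    refine Prod.ext (h1.1 (congrArg Prod.fst h)) (funext fun i => (h2 i).1 ?_)
    exact congrFun (congrArg Prod.snd h) i
  · intro x
    obtain ⟨a, ha⟩ := h1.2 x.1
    choose b hb using fun i => (h2 i).2 (x.2 i)
    exact ⟨(a, b), Prod.ext ha (funext hb)⟩

/-- The base point. -/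
def o : Fin 6 × (I → Fin 12) := (0, fun _ => 0)

theorem reach (x : Fin 6 × (I → Fin 12)) :
    ∃ g ∈ Subgroup.closure (translations (op (I := I))), g o = x := by
  obtain ⟨u, v, w, h⟩ := cC x.1
  choose u' v' w' h' using fun i => cA (x.2 i)
  have hm : ∀ z, Equiv.ofBijective _ (isQuandle.2.1 z) ∈
      Subgroup.closure (translations (op (I := I))) :=
    fun z => Subgroup.subset_closure ⟨z, fun _ => rfl⟩
  exact ⟨_, mul_mem (hm (w, w')) (mul_mem (hm (v, v')) (hm (u, u'))), Prod.ext h (funext h')⟩

theorem connected : Connected (op (I := I)) := by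
  intro x y
  obtain ⟨g, hg, rfl⟩ := reach x
  obtain ⟨k, hk, rfl⟩ := reach y
  exact ⟨k * g⁻¹, mul_mem hk (inv_mem hg), by simp⟩

open Classical in
/-- The good involution given by a subset of `I`. -/
noncomputable def rho (S : Set I) (x : Fin 6 × (I → Fin 12)) : Fin 6 × (I → Fin 12) :=
  (ρC x.1, fun i => if i ∈ S then ρA (x.2 i) else x.2 i)

theorem good (S : Set I) : GoodInvolution op (rho S) := by
  classical
  refine ⟨fun x => Prod.ext (gC.1 x.1) (funext fun i => ?_),
    fun x y => Prod.ext (gC.2.1 x.1 y.1) (funext fun i => ?_),
    fun x y => Prod.ext (gC.2.2 x.1 y.1) (funext fun i => ?_)⟩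
  · by_cases h : i ∈ S
    · simpa [rho, h] using gA.1 (x.2 i)
    · simp [rho, h]
  · by_cases h : i ∈ S
    · simpa [rho, op, h] using gA.2.1 (x.2 i) (y.2 i)
    · simp [rho, op, h]
  · by_cases h : i ∈ S
    · simpa [rho, op, h] using gA.2.2 (x.2 i) (y.2 i)
    · simpa [rho, op, h] using gA'.2.2 (x.2 i) (y.2 i)

end

/-- A good involution commutes with the group generated by the right translations. -/
theorem comm {R : Type u} {op : R → R → R} {ρ : R → R} (h : GoodInvolution op ρ)
    (g : Equiv.Perm R) (hg : g ∈ Subgroup.closure (translations op)) (x : R) :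
    ρ (g x) = g (ρ x) := by
  induction hg using Subgroup.closure_induction generalizing x with
  | mem g hg =>
    obtain ⟨z, hz⟩ := hg
    rw [hz, hz, h.2.1]
  | one => rfl
  | mul a b _ _ ha hb => rw [Equiv.Perm.mul_apply, ha, hb, Equiv.Perm.mul_apply]
  | inv a _ ha =>
    have h1 := ha (a⁻¹ x)
    have e : a (a⁻¹ x) = x := by simp
    rw [e] at h1
    rw [h1]
    simp

theorem rho_injective {I : Type u} : Function.Injective (rho (I := I)) := by
  classical
  intro S T h
  ext i
  have h1 : (rho S o).2 i = (rho T o).2 i := by rw [h]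
  by_cases hS : i ∈ S <;> by_cases hT : i ∈ T
  · simp [hS, hT]
  · simp only [rho, o, hS, hT, if_true, if_false] at h1
    exact absurd h1 nA
  · simp only [rho, o, hS, hT, if_true, if_false] at h1
    exact absurd h1.symm nA
  · simp [hS, hT]

theorem rho_surjective {I : Type u} (ρ : Fin 6 × (I → Fin 12) → Fin 6 × (I → Fin 12))
    (h : GoodInvolution op ρ) : ∃ S, rho S = ρ := by
  classical
  have h3 : ∀ x, op (op x (ρ o)) o = x := fun x => h.2.2 x o
  have e1 : (ρ o).1 = ρC 0 := fC _ fun a => congrArg Prod.fst (h3 (a, fun _ => 0))
  have e2 : ∀ i, (ρ o).2 i = 0 ∨ (ρ o).2 i = ρA 0 := fun i =>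
    fA _ fun a => congrFun (congrArg Prod.snd (h3 (0, fun _ => a))) i
  refine ⟨{i | (ρ o).2 i = ρA 0}, ?_⟩
  have e3 : rho {i | (ρ o).2 i = ρA 0} o = ρ o := by
    refine Prod.ext e1.symm (funext fun i => ?_)
    unfold rho
    dsimp only
    split_ifs with hi
    · exact Eq.symm hi
    · exact ((e2 i).resolve_right hi).symm
  funext x
  obtain ⟨g, hg, rfl⟩ := reach x
  rw [comm h g hg, comm (good _) g hg, e3]

/-- For every set `I` there is a connected noninvolutory quandle, finite if `I` is finite, which has
exactly `2 ^ |I|` good involutions. -/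
theorem result (I : Type u) : ∃ (R : Type u) (op : R → R → R), IsQuandle op ∧ Connected op ∧
    ¬ Involutory op ∧ (Finite I → Finite R) ∧
    Cardinal.mk {ρ : R → R // GoodInvolution op ρ} = 2 ^ Cardinal.mk I := by
  refine ⟨Fin 6 × (I → Fin 12), op, isQuandle, connected, fun h => ?_,
    fun hI => inferInstance, ?_⟩
  · exact nC fun a b => congrArg Prod.fst (h (a, fun _ => 0) (b, fun _ => 0))
  · rw [← Cardinal.mk_set]
    refine (Cardinal.mk_congr (Equiv.ofBijective
      (fun S : Set I => (⟨rho S, good S⟩ : {ρ // GoodInvolution op ρ})) ⟨?_, ?_⟩)).symm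
    · intro S T h
      exact rho_injective (congrArg Subtype.val h)
    · rintro ⟨ρ, h⟩
      obtain ⟨S, hS⟩ := rho_surjective ρ h
      exact ⟨S, Subtype.ext hS⟩

end Pool.Agent.Results.MP_f5f603_al.AllPowersOfTwo
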